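import Pool.Agent.L7h27.SJ.Stm
import Pool.Agent.L7h65.SI.Red

/-!
Project SJ (helper27), part RED, adapted from project SI (helper65) by helper87.
-/

set_option autoImplicit false
set_option linter.all false

namespace Pool.Agent.L7h87.SJ

open Finset Pool.Agent.L7h27.SI Pool.Agent.L7h27.SJ
open Pool.Agent.L7h65.SI (rQ rU rQ_mk rU_coe triv_of fix_pt)

theorem s_RED : Pool.Agent.L7h27.SJ.S_RED := by
  intro V _ ι N _ A p ρ hcl hH U hInv hbot htop w
  obtain ⟨finV, finI, finN, hprime, hinj, hodd, hpg, hcop, hab, hmers, hcomm⟩ := hH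
  have hU : ∀ i, ∀ g : N i, ∀ u ∈ U, ρ i g u ∈ U := hInv
  have hcardUQ : Nat.card V = Nat.card (V ⧸ U) * Nat.card U :=
    AddSubgroup.card_eq_card_quotient_mul_card_addSubgroup U
  have hntU : Nontrivial U := (AddSubgroup.nontrivial_iff_ne_bot U).2 hbot
  have hntQ : Nontrivial (V ⧸ U) := by
    by_contra h
    rw [not_nontrivial_iff_subsingleton] at h
    apply htop
    rw [eq_top_iff]
    intro x _
    have h1 : (QuotientAddGroup.mk x : V ⧸ U) = QuotientAddGroup.mk 0 := Subsingleton.elim _ _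
    rw [QuotientAddGroup.eq] at h1
    rw [add_zero] at h1
    exact neg_mem_iff.1 h1
  have hcU : 1 < Nat.card U := Finite.one_lt_card
  have hcQ : 1 < Nat.card (V ⧸ U) := Finite.one_lt_card
  have hUd : Nat.card U ∣ Nat.card V := ⟨_, by rw [hcardUQ, mul_comm]⟩
  have hQd : Nat.card (V ⧸ U) ∣ Nat.card V := ⟨_, hcardUQ⟩
  have hUlt : Nat.card U < Nat.card V := by
    rw [hcardUQ]
    nlinarith
  have hQlt : Nat.card (V ⧸ U) < Nat.card V := by
    rw [hcardUQ]
    nlinarith
  set ρQ : ∀ i, N i →* AddMonoid.End (V ⧸ U) := fun i => rQ (ρ i) U (hU i) with hρQ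
  set D : ∀ i, Subgroup (N i) := fun i => (ρQ i).ker with hD
  set ρU : ∀ i, D i →* AddMonoid.End U := fun i => rU (ρ i) U (hU i) (D i) with hρU
  have HQ : HypA A p ρQ := by
    refine ⟨inferInstance, finI, finN, hprime, hinj, hodd, hpg, fun i h => hcop i (h.trans hQd), hab,
      fun i hA a b ha hb => hmers i hA a b ha (hb.trans hQd), fun i j hij g h => ?_⟩
    apply AddMonoidHom.ext
    intro x
    obtain ⟨x, rfl⟩ := QuotientAddGroup.mk_surjective x
    show (QuotientAddGroup.mk (ρ i g (ρ j h x)) : V ⧸ U) = QuotientAddGroup.mk (ρ j h (ρ i g x))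
    have h1 := congrArg (fun f : AddMonoid.End V => f x) (hcomm i j hij g h)
    have h2 : ρ i g (ρ j h x) = ρ j h (ρ i g x) := h1
    rw [h2]
  have HU : HypA A p ρU := by
    refine ⟨inferInstance, finI, fun i => inferInstance, hprime, hinj, hodd,
      fun i => (hpg i).to_subgroup _, fun i h => hcop i (h.trans hUd),
      fun i hA g h => Subtype.ext (hab i hA g.1 h.1),
      fun i hA a b ha hb => hmers i hA a b ha (hb.trans hUd), fun i j hij g h => ?_⟩
    apply AddMonoidHom.ext
    intro u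
    apply Subtype.ext
    have h1 := congrArg (fun f : AddMonoid.End V => f u.1) (hcomm i j hij g.1 h.1)
    exact h1
  have MQ : ManyA A ρQ := hcl _ hQlt (V ⧸ U) ι N A p ρQ HQ hntQ rfl
  have MU : ManyA A ρU := hcl _ hUlt U ι (fun i => D i) A p ρU HU hntU rfl
  -- the choices
  have hlift : ∀ c : V ⧸ U, ∃ v0 : V, (QuotientAddGroup.mk v0 : V ⧸ U) = c :=
    fun c => QuotientAddGroup.mk_surjective c
  choose lf hlf using hlift
  have hfix : ∀ (c : V ⧸ U) (i : ι), ∃ f : V, (lf c + w i) - f ∈ U ∧ ∀ g ∈ D i, ρ i g f = f :=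
    fun c i => fix_pt (hU i) (hprime i) (hpg i) (fun h => hcop i (h.trans hUd)) _
  choose ff hf1 hf2 using hfix
  set uu : V ⧸ U → ι → U := fun c i => ⟨lf c + w i - ff c i, hf1 c i⟩ with huu
  have htriv : ∀ i (g : D i), ρU i g = 1 → ρ i g.1 = 1 := by
    intro i g hg
    obtain ⟨k, hk⟩ := hpg i g.1
    refine triv_of (U := U) (hprime i) (fun h => hcop i (h.trans hUd)) hk ?_ ?_
    · intro u hu
      have h1 := congrArg (fun f : AddMonoid.End U => ((f ⟨u, hu⟩ : U) : V)) hg
      exact h1
    · intro v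
      have h1 : ρQ i g.1 = 1 := g.2
      have h2 : (QuotientAddGroup.mk v : V ⧸ U) = QuotientAddGroup.mk (ρ i g.1 v) := by
        have h3 : ρQ i g.1 (QuotientAddGroup.mk v) = QuotientAddGroup.mk v := by
          rw [h1]
          rfl
        exact h3.symm
      rw [QuotientAddGroup.eq] at h2
      have h4 : ρ i g.1 v - v = -v + ρ i g.1 v := by abel
      rw [h4]
      exact h2
  have hgood : ∀ (c : V ⧸ U) (u : U), Good ρQ (fun i => QuotientAddGroup.mk (w i)) c →
      Good ρU (uu c) u → Good ρ w (lf c + u) := by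
    intro c u hc hu i g hg
    have h1 : ρQ i g (c + QuotientAddGroup.mk (w i)) = c + QuotientAddGroup.mk (w i) := by
      have h2 : c + QuotientAddGroup.mk (w i) =
          (QuotientAddGroup.mk (lf c + u + w i) : V ⧸ U) := by
        rw [QuotientAddGroup.mk_add, QuotientAddGroup.mk_add, hlf]
        have h3 : (QuotientAddGroup.mk (u : V) : V ⧸ U) = 0 :=
          (QuotientAddGroup.eq_zero_iff _).2 u.2
        rw [h3, add_zero]
      rw [h2]
      show QuotientAddGroup.mk (ρ i g (lf c + u + w i)) = _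
      rw [hg]
    have hgD : g ∈ D i := hc i g h1
    have h3 : ρU i ⟨g, hgD⟩ (u + uu c i) = u + uu c i := by
      apply Subtype.ext
      show ρ i g ((u : V) + (lf c + w i - ff c i)) = (u : V) + (lf c + w i - ff c i)
      have h4 : (u : V) + (lf c + w i - ff c i) = (lf c + u + w i) - ff c i := by abel
      rw [h4, map_sub, hg, hf2 c i g hgD]
    exact htriv i ⟨g, hgD⟩ (hu i ⟨g, hgD⟩ h3)
  -- the count
  have _ : Finite {c : V ⧸ U // Good ρQ (fun i => QuotientAddGroup.mk (w i)) c} := inferInstance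
  have hcount : ∀ m : ℕ, (∀ c : V ⧸ U, m ≤ gd ρU (uu c)) →
      gd ρQ (fun i => QuotientAddGroup.mk (w i)) * m ≤ gd ρ w := by
    intro m hm
    have h1 : Nat.card (Σ c : {c : V ⧸ U // Good ρQ (fun i => QuotientAddGroup.mk (w i)) c},
        {u : U // Good ρU (uu c.1) u}) ≤ gd ρ w := by
      unfold gd
      refine Nat.card_le_card_of_injective
        (fun x => (⟨lf x.1.1 + x.2.1, hgood x.1.1 x.2.1 x.1.2 x.2.2⟩ : {v : V // Good ρ w v})) ?_
      rintro ⟨⟨c, hc⟩, ⟨u, hu⟩⟩ ⟨⟨c', hc'⟩, ⟨u', hu'⟩⟩ h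
      have h2 : lf c + (u : V) = lf c' + (u' : V) := congrArg Subtype.val h
      have h3 : c = c' := by
        have h4 := congrArg (fun x : V => (QuotientAddGroup.mk x : V ⧸ U)) h2
        simp only [QuotientAddGroup.mk_add, hlf] at h4
        have e1 : (QuotientAddGroup.mk (u : V) : V ⧸ U) = 0 :=
          (QuotientAddGroup.eq_zero_iff _).2 u.2
        have e2 : (QuotientAddGroup.mk (u' : V) : V ⧸ U) = 0 :=
          (QuotientAddGroup.eq_zero_iff _).2 u'.2
        rwa [e1, e2, add_zero, add_zero] at h4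
      subst h3
      have h5 : u = u' := Subtype.ext (add_left_cancel h2)
      subst h5
      rfl
    refine le_trans ?_ h1
    have _ := Fintype.ofFinite {c : V ⧸ U // Good ρQ (fun i => QuotientAddGroup.mk (w i)) c}
    rw [Nat.card_sigma]
    unfold gd
    rw [Nat.card_eq_fintype_card, ← Finset.card_univ, ← smul_eq_mul]
    exact Finset.card_nsmul_le_sum _ _ _ fun c _ => hm c.1
  obtain ⟨q1, q2⟩ := MQ (fun i => QuotientAddGroup.mk (w i))
  refine ⟨?_, fun i => ?_⟩
  · have h1 := hcount 2 fun c => (MU (uu c)).1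
    omega
  · have h1a := hcount ((ρU i).ker.index) fun c => ((MU (uu c)).2 i).1
    obtain ⟨h2a, h2b⟩ := q2 i
    have h3 : (ρ i).ker.index ≤ (ρU i).ker.index * (ρQ i).ker.index := by
      have hle : (ρ i).ker ≤ (ρQ i).ker := by
        intro g hg
        have h4 : ρ i g = 1 := hg
        show ρQ i g = 1
        apply AddMonoidHom.ext
        intro x
        obtain ⟨x, rfl⟩ := QuotientAddGroup.mk_surjective x
        show QuotientAddGroup.mk (ρ i g x) = _
        rw [h4]
        rfl
      rw [← Subgroup.relIndex_mul_index hle]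
      refine Nat.mul_le_mul_right _ ?_
      unfold Subgroup.relIndex
      have hle2 : (ρU i).ker ≤ (ρ i).ker.subgroupOf (ρQ i).ker := by
        intro g hg
        rw [Subgroup.mem_subgroupOf]
        exact htriv i g hg
      have _ : Finite (D i) := inferInstance
      exact Nat.le_of_dvd (Nat.pos_of_ne_zero Subgroup.FiniteIndex.index_ne_zero)
        (Subgroup.index_dvd_of_le hle2)
    refine ⟨?_, fun hA => ?_⟩
    · calc (ρ i).ker.index ≤ (ρU i).ker.index * (ρQ i).ker.index := h3
        _ = (ρQ i).ker.index * (ρU i).ker.index := mul_comm _ _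
        _ ≤ _ := (Nat.mul_le_mul_right _ h2a).trans h1a
    · have h1 := hcount (2 * (ρU i).ker.index) fun c => ((MU (uu c)).2 i).2 hA
      calc 2 * (ρ i).ker.index ≤ 2 * ((ρU i).ker.index * (ρQ i).ker.index) :=
            Nat.mul_le_mul_left 2 h3
        _ ≤ (2 * (ρQ i).ker.index) * (2 * (ρU i).ker.index) := by nlinarith
        _ ≤ _ := (Nat.mul_le_mul_right _ (h2b hA)).trans h1

end Pool.Agent.L7h87.SJ
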